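import Pool.Agent.H.MP_7f09f8.A

set_option autoImplicit false
open Set Function Topology Filter

namespace Pool.Agent.Results.MP_1f8704_gt.Analytic
open Pool.Agent.H.MP_7f09f8
universe u v

/-- the topology of pointwise convergence on the continuous real functions -/
abbrev ptop (X : Type u) [TopologicalSpace X] : TopologicalSpace C(X, ℝ) :=
  TopologicalSpace.induced (fun f : C(X, ℝ) => (f : X → ℝ)) Pi.topologicalSpace

lemma tend {Y : Type v} {Z : Type} [TopologicalSpace Y] [T35Space Y] {l : Filter Z} {r : Z → Y}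
    {y : Y} (h : ∀ k : C(Y, ℝ), Tendsto (fun z => k (r z)) l (𝓝 (k y))) : Tendsto r l (𝓝 y) := by
  refine tendsto_def.2 fun O hO => ?_
  obtain ⟨k, k1, k2, k3⟩ := CompletelyRegularSpace.completely_regular y (interior O)ᶜ
    isOpen_interior.isClosed_compl fun h => h (mem_interior_iff_mem_nhds.2 hO)
  filter_upwards [(h ⟨fun z => k z, continuous_subtype_val.comp k1⟩).eventually
    (gt_mem_nhds (a := 1) (by simp [k2]))] with z hz
  by_contra hn
  simp [k3 (x := r z) fun h => hn (interior_subset (s := O) h)] at hz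

theorem result (X : Type u) (Y : Type v) [TopologicalSpace X] [T35Space X] [TopologicalSpace Y]
    [T35Space Y] (hX : ∃ f : (ℕ → ℕ) → X, Continuous f ∧ Surjective f)
    (T : C(X, ℝ) →ₗ[ℝ] C(Y, ℝ)) (hT : @Continuous _ _ (ptop X) (ptop Y) T) (hs : Surjective T)
    (hn : Injective T ∨ Nonempty Y) : ∃ f : (ℕ → ℕ) → Y, Continuous f ∧ Surjective f := by
  classical
  obtain ⟨π, π1, π2⟩ := hX
  have : Nonempty Y := hn.elim (fun h => by
    by_contra hc
    rw [not_nonempty_iff] at hc
    simpa using congrArg (· (π 0)) (h (a₁ := 1) (a₂ := 0) (by ext y; exact isEmptyElim y))) id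
  let Φ : C(X, ℝ) → ℕ × (ℕ → (ℕ → ℕ) × ℝ) → ℝ := fun g p =>
    ∑ i ∈ Finset.range p.1, (p.2 i).2 * g (π (p.2 i).1)
  have hΦ : ∀ g, Continuous (Φ g) := fun g => continuous_prod_of_discrete_left.2 fun n => by
    simp only [Φ]
    exact continuous_finsetSum _ fun i _ => by fun_prop
  let F := {p | ∃ y, ∀ g, T g y = Φ g p}
  choose ρ hρ using fun p : F => p.2
  have ρ1 : Continuous ρ := continuous_iff_continuousAt.2 fun p => tend fun k => by
    obtain ⟨g, rfl⟩ := hs k
    simp only [hρ]
    exact ((hΦ g).comp continuous_subtype_val).tendsto p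
  have ρ2 : Surjective ρ := fun y => by
    obtain ⟨n, x, c, h⟩ := repr (ContinuousMap.coeFnLinearMap ℝ)
      ((ContinuousMap.evalCLM ℝ y).toLinearMap ∘ₗ T) (@Continuous.comp _ _ _ (ptop X) (ptop Y) _ _ _
        (@Continuous.comp _ _ _ (ptop Y) _ _ _ _ (continuous_apply y) continuous_induced_dom) hT)
    choose a ha using fun i => π2 (x i)
    have e : ∀ g, T g y = Φ g (n, fun j => if h : j < n then (a ⟨j, h⟩, c ⟨j, h⟩) else 0) :=
      fun g => (h g).trans (by simp [Φ, Finset.sum_range, ha])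
    refine ⟨⟨_, y, e⟩, tendsto_nhds_unique (l := (⊤ : Filter Unit)) tendsto_const_nhds
      (tend fun k => ?_)⟩
    obtain ⟨g, rfl⟩ := hs k
    rw [hρ, e]
    exact tendsto_const_nhds
  have : LindelofSpace Y := ⟨ρ2.range_eq ▸ isLindelof_range ρ1⟩
  have hF : IsClosed F := IsSeqClosed.isClosed fun u p hu hp => by
    choose y hy using hu
    have ht : ∀ g, Tendsto (fun k => T g (y k)) atTop (𝓝 (Φ g p)) := fun g => by
      simp only [hy]
      exact ((hΦ g).tendsto p).comp hp
    by_cases hc : ∃ z, MapClusterPt z atTop y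
    · obtain ⟨z, hz⟩ := hc
      exact ⟨z, fun g => eq_of_nhds_neBot ((hz.continuousAt_comp
        (T g).continuous.continuousAt).clusterPt.mono (ht g))⟩
    have hl : LocallyFinite fun k => ({y k} : Set Y) := fun z => by
      by_contra h
      refine hc ⟨z, mapClusterPt_iff_frequently.2 fun s hs => ?_⟩
      rw [← Nat.cofinite_eq_atTop, frequently_cofinite_iff_infinite]
      exact fun hf => h ⟨s, hs, by simpa using hf⟩
    obtain ⟨k, hk⟩ := ContinuousMap.exists_restrict_eq (hl.isClosed_iUnion fun _ =>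
      isClosed_singleton) ⟨_, (hl.continuousOn_iUnion (g := fun z => ((sInf {j | y j = z} : ℕ) : ℝ))
        (fun _ => isClosed_singleton) fun _ => continuousOn_singleton _ _).domRestrict⟩
    obtain ⟨g, rfl⟩ := hs k
    obtain ⟨M, hM⟩ := (ht g).bddAbove_range
    obtain ⟨m, hm⟩ := exists_nat_ge M
    refine (infinite_univ (((finite_Iic m).biUnion fun j _ => hl.point_finite (y j)).subset
      fun j _ => mem_iUnion₂.2 ⟨sInf {i | y i = y j}, ?_, Nat.sInf_mem (s := {i | y i = y j})
        ⟨j, rfl⟩⟩)).elim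
    have e : T g (y j) = (sInf {i | y i = y j} : ℕ) :=
      congrArg (· ⟨y j, mem_iUnion.2 ⟨j, rfl⟩⟩) hk
    exact Nat.cast_le.1 (e.symm.le.trans ((hM ⟨j, rfl⟩).trans hm))
  have := hF.polishSpace
  have : Nonempty F := ρ2.nonempty
  obtain ⟨f, f1, f2⟩ := PolishSpace.exists_nat_nat_continuous_surjective F
  exact ⟨_, ρ1.comp f1, ρ2.comp f2⟩

end Pool.Agent.Results.MP_1f8704_gt.Analytic
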